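import Pool.Agent.PFU.COMPT
import Pool.Agent.PFU.SIGN
import Pool.Agent.PenroseM.C90

/-!
The Penrose inequality for asymptotically flat initial data on the exterior region `|x| ≥ 1`
(the region outside the outermost minimal surface `|x| = 1`, or outside an apparent horizon), for
`h` which is plane-signed at the points with `R_g > 2 |J|`, for trace-dominated `h` and for all data
`(g₁, h₁)` whose metric has smaller area elements and whose mass is larger than those of such data;
no symmetry or foliation is assumed.
-/

namespace Pool.Agent.Results.MP_ede089_mp.ExteriorPenrose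

open Pool.Agent.PenroseSph Pool.Agent.PFlow Pool.Agent.PFU

/-- Let `(g, h)` be asymptotically flat initial data on the exterior region `|x| ≥ 1`, smooth up
to the boundary `S = {|x| = 1}`, which satisfy the dominant energy condition for `|x| > 1`, and let
`m` be the total mass. Assume that one of the following holds:

* at every point `|x| > 1` with `R_g > 2 |J|` the traces of `h` over the planes of the tangent space
  are all nonnegative or all nonpositive (where `R_g ≤ 2 |J|`, in particular where `R_g ≤ 0`, this
  follows from the energy condition), `h` satisfies the condition `FarCondition` at infinity, and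
  `S` is weakly trapped, `H ≤ |tr_S h|` (for example a minimal surface or an apparent horizon);
* `(4/3)|d tr h| ≤ |h|² - (tr h)²/3 + 2|J|` for `|x| > 1` and `H ≤ (2/3)|tr h|` on `S`;
* the trace-free part of `h` is divergence-free for `|x| > 1` and `H ≤ (2/3)|tr h|` on `S`.

Let `g₁` be a metric on `|x| > 1` for which no plane element has a larger area than for `g`, and
let `m₁ ≥ m` (for example `g₁ = g` and `m₁ = m`; or `g₁` and `m₁` are the metric and the total mass
of initial data `(g₁, h₁)`, `h₁` arbitrary, for instance of a slice `t = f(x)`,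
`g₁ = g - φ² df²`, of the static space-time `-φ² dt² + g` when `h = 0`).

Let `A = minAreaX g₁` be the infimum of the `g₁`-areas of the smooth closed surfaces which enclose
`S`. Then `A < ∞` and `m₁ ≥ sqrt (A / 16π)`. -/
theorem result (g h : TensorField) (m : ℝ) (hE : Exterior g h) (hD : DominantEnergy 1 g h)
    (hh : ((∀ x : E3, 1 < ‖x‖ → 2 * jlen g h x < scalarCurvature g x →
          (∀ v : Cov, ev (g x) v v = 1 → ev (h x) v v ≤ trg g x (h x)) ∨
          (∀ v : Cov, ev (g x) v v = 1 → trg g x (h x) ≤ ev (h x) v v)) ∧ FarCondition g h ∧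
        ∀ x : E3, ‖x‖ = 1 → sphereMean g x ≤ |sphereTr g h x|) ∨
      ((TraceDominatedX g h ∨
        ∀ x : E3, 1 < ‖x‖ → ∀ j, divergence g (fun y => h y - traceTensor g h y) j x = 0) ∧
        ∀ x : E3, ‖x‖ = 1 → sphereMean g x ≤ 2 / 3 * |trg g x (h x)|))
    (hm : IsTotalMass g m)
    (g₁ : TensorField) (m₁ : ℝ) (h₁ : MetricOn {x : E3 | 1 < ‖x‖} g₁)
    (hA : AreaLe {x : E3 | 1 < ‖x‖} g₁ g) (hm₁ : m ≤ m₁) :
    minAreaX g₁ ≠ ⊤ ∧ Real.sqrt ((minAreaX g₁).toReal / (16 * Real.pi)) ≤ m₁ :=
  exterior_comparison xXMAIN xXTRD xXTFD g h m hE hD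
    (hh.imp_left fun hs => ⟨SIGN.planeSignX hE hD hs.1, hs.2⟩) hm g₁ m₁ h₁ hA hm₁

end Pool.Agent.Results.MP_ede089_mp.ExteriorPenrose
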