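import Pool.Agent.PFU.COMPT
import Pool.Agent.PFU.Asm
import Pool.Agent.PFU.SIGN

/-!
The Penrose inequality for asymptotically flat initial data with any number of ends on `ℝ³` minus
finitely many points, without symmetry or foliation assumptions, for `h` which is plane-signed at
the points with `R_g > 2 |J|`, for trace-dominated `h` and for all data `(g₁, h₁)` whose metric has
smaller area elements and whose mass is larger than those of such data: with the conjectured
constant for every group of ends which does not split.
-/

namespace Pool.Agent.Results.MP_ede089_mp.JointFlowPenrose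

open Pool.Agent.PenroseSph Pool.Agent.PFlow Pool.Agent.PFT Pool.Agent.PFU

/-- Let `(g, h)` be asymptotically flat initial data on `ℝ³` minus a finite set `P` (with `|P| + 1`
ends: infinity, and one end at every `p ∈ P`), satisfying the dominant energy condition, and let
`m` be the total mass of the end at infinity. Assume that one of the following holds:

* at every point with `R_g > 2 |J|` the traces of `h` over the planes of the tangent space are all
  nonnegative or all nonpositive (where `R_g ≤ 2 |J|`, in particular where `R_g ≤ 0`, this follows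
  from the energy condition), and `h` satisfies the condition `FarCondition` at infinity;
* `(4/3)|d tr h| ≤ |h|² - (tr h)²/3 + 2|J|`;
* the trace-free part of `h` is divergence-free.

Let `g₁` be a metric on `ℝ³ - P` for which no plane element has a larger area than for `g`, and
let `m₁ ≥ m` (for example `g₁ = g` and `m₁ = m`; or `g₁` and `m₁` are the metric and the total mass
of initial data `(g₁, h₁)`, `h₁` arbitrary, for instance of a slice `t = f(x)`,
`g₁ = g - φ² df²`, of the static space-time `-φ² dt² + g` when `h = 0`).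

For `T ⊆ P` let `A_T(g) = minAreaOf P T g` be the infimum of the areas of the surfaces which
separate the ends of `T` from infinity (the other ends may lie on either side); `A_P` is the area
of the question. The group `T` of ends does not split (`Unsplit P T g`) if
`A_T < A_S + A_(T \ S)` for all nonempty `S ⊂ T`, `S ≠ T`: it costs less to separate the ends of
`T` from infinity together than in two groups. Then

* `m₁ ≥ sqrt (A_T(g₁) / 16π)` for every nonempty `T ⊆ P` which does not split (in particular for
  every `T = {p}`);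
* every nonempty `T ⊆ P` is the union of `j` disjoint nonempty sets `S` which do not split, with
  `A_T(g) = ∑ A_S(g)`, and `m₁ ≥ sqrt (A_T(g₁) / (16π j))`. -/
theorem result (P : Finset E3) (g h : TensorField) (m : ℝ)
    (hE : SeveralEnds P g h) (hD : EnergyCondition P g h)
    (hh : ((∀ x : E3, x ∉ P → 2 * jlen g h x < scalarCurvature g x →
          (∀ v : Cov, ev (g x) v v = 1 → ev (h x) v v ≤ trg g x (h x)) ∨
          (∀ v : Cov, ev (g x) v v = 1 → trg g x (h x) ≤ ev (h x) v v)) ∧ FarCondition g h) ∨
      TraceDominatedP P g h ∨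
      ∀ x : E3, x ∉ P → ∀ j, divergence g (fun y => h y - traceTensor g h y) j x = 0)
    (hm : IsTotalMass g m)
    (g₁ : TensorField) (m₁ : ℝ) (h₁ : MetricOn ((P : Set E3))ᶜ g₁)
    (hA : AreaLe ((P : Set E3))ᶜ g₁ g) (hm₁ : m ≤ m₁) :
    (∀ T : Finset E3, T ⊆ P → T.Nonempty → Unsplit P T g →
      minAreaOf P T g₁ ≠ ⊤ ∧ Real.sqrt ((minAreaOf P T g₁).toReal / (16 * Real.pi)) ≤ m₁) ∧
    ∀ T : Finset E3, T ⊆ P → T.Nonempty →
      ∃ 𝒯 : Finset (Finset E3), 𝒯.Nonempty ∧ (∀ S ∈ 𝒯, S.Nonempty ∧ S ⊆ T ∧ Unsplit P S g) ∧
        (∀ S ∈ 𝒯, ∀ S' ∈ 𝒯, S ≠ S' → Disjoint S S') ∧ (∀ p ∈ T, ∃ S ∈ 𝒯, p ∈ S) ∧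
        minAreaOf P T g = ∑ S ∈ 𝒯, minAreaOf P S g ∧ minAreaOf P T g₁ ≠ ⊤ ∧
        Real.sqrt ((minAreaOf P T g₁).toReal / (16 * Real.pi * 𝒯.card)) ≤ m₁ :=
  joint_comparison uTMU fRTRD fRTFD P g h m hE hD
    (hh.imp_left fun hs => ⟨SIGN.planeSignP hE hD hs.1, hs.2⟩) hm g₁ m₁ h₁ hA hm₁

end Pool.Agent.Results.MP_ede089_mp.JointFlowPenrose
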