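import Pool.Agent.NullCone.General
import Pool.Agent.NullCone.Square
import Pool.Agent.NullCone.Solve
import Pool.Agent.NullCone.Torsion
import Pool.Agent.NullCone.Energy
import Pool.Agent.NullCone.Scalar
import Pool.Agent.NullCone.Pointwise
import Pool.Agent.NullCone.Limit
import Pool.Agent.NullCone.MasterG
import Pool.Agent.NullShell.Bochner
import Pool.Agent.NullShell.Approx

/-!
The null Penrose inequality for null cones that are not crossed by radiation, with the total
outer expansion of the first section.
-/

open MeasureTheory Filter Topology

namespace Pool.Agent.Results.MP_ede089_mp.NullConePenrose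

open Pool.Agent.NullShell Pool.Agent.NullCone

/-- **The Penrose inequality for null cones that are not crossed by radiation, for every first
section.**

`Ω` is the null hypersurface generated by the past directed outgoing null geodesics starting
orthogonally at a closed surface `S` of a spacetime satisfying the dominant energy condition; it
is regular up to past null infinity, where its affinely parametrised sections `S_s`, `s ≥ 0`,
`S_0 = S`, become round with radius `s` and outer null expansion `2 / s`. The curvature
`R(L, X, L, Y)` vanishes on `Ω`, `L` the generator, `X` and `Y` tangent to `Ω`; no symmetry is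
assumed, the shear of `Ω` is arbitrary, and matter may be present. Let `EB` be the Bondi energy of
`Ω`, the limit of the Hawking energies of the sections. Then, whether `S` is trapped or not,
`√(area S / 16 π) ≤ EB + (1 / 16 π) ∫_S θ`, `θ` the outer null expansion of `S`. In particular,
if `S` is weakly outer trapped, then `√(area S / 16 π) ≤ EB`. -/
theorem result (C : ConeData) (EB : ℝ) (hEB : Tendsto C.hawkingEnergy atTop (𝓝 EB)) :
    Real.sqrt (C.area 0 / (16 * Real.pi)) ≤
        EB + 1 / (16 * Real.pi) * sint (fun x => areaEl (C.γ 0) x * C.θ 0 x) ∧
      ((∀ x ∈ SS, C.θ 0 x ≤ 0) → Real.sqrt (C.area 0 / (16 * Real.pi)) ≤ EB) := by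
  have hT : Torsion_Stmt := Torsion Square (Solve Square)
  have hSm : Smooth_Stmt := SmoothS Square (Solve Square) hT
  have h : Real.sqrt (C.area 0 / (16 * Real.pi)) ≤
      EB + 1 / (16 * Real.pi) * sint (fun x => areaEl (C.γ 0) x * C.θ 0 x) :=
    ConeFinalG (Solve Square) hSm (Pointwise Scalar) Limit (MasterG Bochner) Approx C EB hEB
  refine ⟨h, fun hθ => ?_⟩
  have h1 : 0 ≤ sint (fun x => -(areaEl (C.γ 0) x * C.θ 0 x)) :=
    sint_nonneg fun x hx => by
      have := mul_nonneg (Real.sqrt_nonneg (tdet (C.γ 0) x)) (neg_nonneg.2 (hθ x hx))
      unfold areaEl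
      linarith
  rw [sint_neg] at h1
  have h2 : 1 / (16 * Real.pi) * sint (fun x => areaEl (C.γ 0) x * C.θ 0 x) ≤ 0 := by
    have := Real.pi_pos
    exact mul_nonpos_of_nonneg_of_nonpos (by positivity) (by linarith)
  linarith

end Pool.Agent.Results.MP_ede089_mp.NullConePenrose
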