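import Pool.Agent.NullShell.Flux

/-!
The Gibbons-Penrose inequality for closed surfaces in Minkowski space with a regular past null
cone, in its covariant form, and the Penrose inequality for collapsing null dust shells.
-/

open MeasureTheory

namespace Pool.Agent.Results.MP_ede089_mp.NullShellPenrose

open Pool.Agent.NullShell

/-- The time component of `Q = (1 / 16 π) ∫_S θ k`, `k = (1, -x)`: it is `(1 / 16 π) ∫_S θ`. -/
noncomputable def fluxEnergy (X ℓ : E → Mink) (e₁ e₂ : E → E) : ℝ :=
  1 / (16 * Real.pi) * ∫ x : SS, expansion X ℓ e₁ e₂ x * areaElement X e₁ e₂ x ∂sph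

/-- The space component of `Q = (1 / 16 π) ∫_S θ k`, `k = (1, -x)`. -/
noncomputable def fluxMomentum (X ℓ : E → Mink) (e₁ e₂ : E → E) : E :=
  (1 / (16 * Real.pi)) •
    ∫ x : SS, (expansion X ℓ e₁ e₂ x * areaElement X e₁ e₂ x) • (-(x : E)) ∂sph

/-- **The Gibbons-Penrose inequality in Minkowski space, covariant form.**

Let `S` be a closed spacelike surface in Minkowski space, given by a map `X` that is smooth at
the points of the unit sphere, parametrised such that `k = (1, -x)` is the future directed
ingoing null normal of `S` at `X x`; the null hypersurface `Ω` swept out by the rays `X x - r k`,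
`r ≥ 0`, to the past of `S`, is assumed to be regular. `ℓ` is the outer null normal,
`⟨ℓ, k⟩ = -2`, and `θ = expansion X ℓ` the outer null expansion of `S`.

(1) The vector `Q = (1 / 16 π) ∫_S θ k` is timelike and future directed, and its Minkowski
length is at least `√(area S / 16 π)`. So, for every inertial observer, if `k` and `ℓ` are
normalised by this observer, `∫_S θ ≥ √(16 π area S)`.

(2) A shell of null dust falls along `Ω`, with flat space inside and energy density `ε` per unit
area of `S` (its stress energy tensor is `ε k ⊗ k` times a delta function); the outer null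
expansion of `S` measured outside the shell is `θ - 16 π ε`. If `S` is weakly outer trapped there,
then the energy-momentum vector `(E, P)` of the shell, which is the total energy-momentum of the
spacetime, is timelike and its mass satisfies `m = √(E² - |P|²) ≥ √(area S / 16 π)`. -/
theorem result (X ℓ : E → Mink) (hX : IsSurface X) (hℓ : IsOuterNormal X ℓ) (e₁ e₂ : E → E)
    (he : IsTangentFrame e₁ e₂) :
    (‖fluxMomentum X ℓ e₁ e₂‖ < fluxEnergy X ℓ e₁ e₂ ∧
      Real.sqrt (area X e₁ e₂ / (16 * Real.pi)) ≤
        Real.sqrt (fluxEnergy X ℓ e₁ e₂ ^ 2 - ‖fluxMomentum X ℓ e₁ e₂‖ ^ 2)) ∧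
    ∀ ε : E → ℝ, Integrable (fun x : SS => ε x * areaElement X e₁ e₂ x) sph →
      (∀ x ∈ SS, expansion X ℓ e₁ e₂ x - 16 * Real.pi * ε x ≤ 0) →
      ‖shellMomentum X e₁ e₂ ε‖ < shellEnergy X e₁ e₂ ε ∧
        Real.sqrt (area X e₁ e₂ / (16 * Real.pi)) ≤ shellMass X e₁ e₂ ε := by
  refine ⟨?_, fun ε hε htrapped => covariantShell X ℓ e₁ e₂ hX hℓ he ε hε htrapped⟩
  have hpi : (16 * Real.pi) ≠ 0 := by
    have := Real.pi_pos
    positivity
  have hint := expansion_integrable X ℓ hX hℓ e₁ e₂ he
  have h := covariantShell X ℓ e₁ e₂ hX hℓ he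
    (fun x => 1 / (16 * Real.pi) * expansion X ℓ e₁ e₂ x)
    ((hint.const_mul (1 / (16 * Real.pi))).congr
      (Filter.Eventually.of_forall fun x => by simp only; ring))
    (fun x _ => le_of_eq (by field_simp; ring))
  have e1 : shellEnergy X e₁ e₂ (fun x => 1 / (16 * Real.pi) * expansion X ℓ e₁ e₂ x) =
      fluxEnergy X ℓ e₁ e₂ := by
    unfold shellEnergy fluxEnergy
    rw [← integral_const_mul]
    exact integral_congr_ae (Filter.Eventually.of_forall fun x => by simp only; ring)
  have e2 : shellMomentum X e₁ e₂ (fun x => 1 / (16 * Real.pi) * expansion X ℓ e₁ e₂ x) =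
      fluxMomentum X ℓ e₁ e₂ := by
    unfold shellMomentum fluxMomentum
    rw [← integral_smul]
    refine integral_congr_ae (Filter.Eventually.of_forall fun x => ?_)
    simp only
    rw [smul_smul]
    congr 1
    ring
  unfold shellMass at h
  rw [e1, e2] at h
  exact h

end Pool.Agent.Results.MP_ede089_mp.NullShellPenrose
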